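import Pool.Agent.BEB.Stmts

/-!
# Squad BEB (MP_be01ff_an), row SPE: the spectrum of the half ball
-/

set_option autoImplicit false

namespace Pool.Agent.BEB.H3

open Set Filter Topology MeasureTheory
open scoped InnerProductSpace ENNReal
open Pool.Agent.BE01 Pool.Agent.BEB

noncomputable section

theorem fin_mu (R : ℝ) : IsFiniteMeasure (mu (HB R)) := by
  constructor
  unfold mu
  rw [Measure.restrict_apply_univ]
  have h1 : HB R ⊆ Metric.ball (0 : En 3) R := by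
    intro x hx
    rw [mem_ball_zero_iff]
    exact hx.1
  exact (measure_mono h1).trans_lt measure_ball_lt_top

theorem meas_HB (R : ℝ) : MeasurableSet (HB R) := by
  have h1 : IsOpen (HB R) := by
    have e : HB R = {x : En 3 | ‖x‖ < R} ∩ {x : En 3 | 0 < x 2} := rfl
    rw [e]
    refine IsOpen.inter (isOpen_lt continuous_norm continuous_const) ?_
    exact isOpen_lt continuous_const (EuclideanSpace.proj (𝕜 := ℝ) (2 : Fin 3)).continuous
  exact h1.measurableSet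

theorem ae_HB (R : ℝ) : ∀ᵐ x ∂(mu (HB R)), x ∈ HB R := by
  unfold mu
  exact ae_restrict_mem (meas_HB R)

section
variable (EVP : EvpStmt) {R : ℝ}
include EVP

theorem ev_memLp (P : Pl) : MemLp (ev P) 2 (mu (HB R)) := by
  obtain ⟨h1, _, _, _, _, _, _, h8⟩ := EVP
  obtain ⟨C, hC⟩ := h8 P R
  have := fin_mu R
  refine MemLp.of_bound (C := C) (h1 P).continuous.aestronglyMeasurable ?_
  filter_upwards [ae_HB R] with x hx
  rw [Real.norm_eq_abs]
  exact hC x hx.1.le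

theorem int_ev (u : Lp ℝ 2 (mu (HB R))) (P : Pl) :
    Integrable (fun x => u x * ev P x) (mu (HB R)) :=
  (Lp.memLp u).integrable_mul (ev_memLp EVP P)

theorem I_add (u : Lp ℝ 2 (mu (HB R))) (P Q : Pl) :
    ∫ x, u x * ev (P + Q) x ∂(mu (HB R)) =
      ∫ x, u x * ev P x ∂(mu (HB R)) + ∫ x, u x * ev Q x ∂(mu (HB R)) := by
  rw [← integral_add (int_ev EVP u P) (int_ev EVP u Q)]
  refine integral_congr_ae (Eventually.of_forall fun x => ?_)
  show u x * ev (P + Q) x = u x * ev P x + u x * ev Q x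
  rw [EVP.2.2.1]
  ring

theorem I_C (u : Lp ℝ 2 (mu (HB R))) (c : ℝ) (P : Pl) :
    ∫ x, u x * ev (MvPolynomial.C c * P) x ∂(mu (HB R)) =
      c * ∫ x, u x * ev P x ∂(mu (HB R)) := by
  rw [← integral_const_mul]
  refine integral_congr_ae (Eventually.of_forall fun x => ?_)
  show u x * ev (MvPolynomial.C c * P) x = c * (u x * ev P x)
  rw [EVP.2.2.2.1, EVP.2.2.2.2.1]
  ring

end

theorem lap_add (P Q : Pl) : lap (P + Q) = lap P + lap Q := by
  unfold lap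
  simp only [map_add, Finset.sum_add_distrib]

theorem lap_C (c : ℝ) (P : Pl) : lap (MvPolynomial.C c * P) = MvPolynomial.C c * lap P := by
  unfold lap
  simp only [MvPolynomial.pderiv_C_mul, Finset.mul_sum]

/-- the functional `L` -/
def LL {R : ℝ} (μ : ℝ) (u : Lp ℝ 2 (mu (HB R))) (P : Pl) : ℝ :=
  ∫ x, u x * ev (lap P + MvPolynomial.C μ * P) x ∂(mu (HB R))

section
variable (EVP : EvpStmt) {R : ℝ} (μ : ℝ)
include EVP

theorem LL_add (u : Lp ℝ 2 (mu (HB R))) (P Q : Pl) : LL μ u (P + Q) = LL μ u P + LL μ u Q := by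
  unfold LL
  rw [← I_add EVP]
  have e : lap (P + Q) + MvPolynomial.C μ * (P + Q) =
      lap P + MvPolynomial.C μ * P + (lap Q + MvPolynomial.C μ * Q) := by
    rw [lap_add]
    ring
  rw [e]

theorem LL_C (u : Lp ℝ 2 (mu (HB R))) (c : ℝ) (P : Pl) :
    LL μ u (MvPolynomial.C c * P) = c * LL μ u P := by
  unfold LL
  rw [← I_C EVP]
  have e : lap (MvPolynomial.C c * P) + MvPolynomial.C μ * (MvPolynomial.C c * P) =
      MvPolynomial.C c * (lap P + MvPolynomial.C μ * P) := by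
    rw [lap_C]
    ring
  rw [e]

theorem LL_zero (u : Lp ℝ 2 (mu (HB R))) : LL μ u 0 = 0 := by
  have h := LL_C EVP μ u 0 0
  rw [MvPolynomial.C_0, zero_mul, zero_mul] at h
  exact h

/-- the property used of the eigenfunctions -/
def OO {R : ℝ} (μ : ℝ) (u : Lp ℝ 2 (mu (HB R))) : Prop :=
  ∀ Q : Pl, OddP Q → LL μ u ((rho - MvPolynomial.C (R ^ 2)) * Q) = 0

theorem LL_rho (u : Lp ℝ 2 (mu (HB R))) (hu : OO μ u) (Q : Pl) (hQ : OddP Q) :
    LL μ u (rho * Q) = R ^ 2 * LL μ u Q := by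
  have e : rho * Q = (rho - MvPolynomial.C (R ^ 2)) * Q + MvPolynomial.C (R ^ 2) * Q := by ring
  rw [e, LL_add EVP, LL_C EVP, hu Q hQ, zero_add]

theorem LL_rho_pow (ODP : OdpStmt) (u : Lp ℝ 2 (mu (HB R))) (hu : OO μ u) (Q : Pl) (hQ : OddP Q)
    (b : ℕ) : OddP (rho ^ b * Q) ∧ LL μ u (rho ^ b * Q) = (R ^ 2) ^ b * LL μ u Q := by
  induction b with
  | zero =>
    rw [pow_zero, one_mul, pow_zero, one_mul]
    exact ⟨hQ, rfl⟩
  | succ b ih =>
    have e : rho ^ (b + 1) * Q = rho * (rho ^ b * Q) := by ring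
    rw [e, LL_rho EVP μ u hu _ ih.1, ih.2]
    exact ⟨ODP.2.2.1 _ ih.1, by ring⟩

end

/-- the partial sums -/
def psi (l : ℕ) (μ : ℝ) (H : Pl) (K : ℕ) : Pl :=
  ∑ k ∈ Finset.range (K + 1), MvPolynomial.C (cf l k * μ ^ k) * (rho ^ k * H)

theorem lap_psi (CFS : CfsStmt) (LPF : LpfStmt) (l : ℕ) (μ : ℝ) (H : Pl) (hH : Har l H) (K : ℕ) :
    lap (psi l μ H K) + MvPolynomial.C μ * psi l μ H K =
      MvPolynomial.C (μ * (cf l K * μ ^ K)) * (rho ^ K * H) := by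
  induction K with
  | zero =>
    unfold psi
    rw [Finset.sum_range_one, lap_C, pow_zero, pow_zero, one_mul, hH.2.1, mul_zero, zero_add,
      MvPolynomial.C_mul (a := μ), mul_assoc]
  | succ K ih =>
    have e : psi l μ H (K + 1) = psi l μ H K +
        MvPolynomial.C (cf l (K + 1) * μ ^ (K + 1)) * (rho ^ (K + 1) * H) := by
      unfold psi
      rw [Finset.sum_range_succ]
    have hrec := (CFS l).2.2.1 K
    rw [e, lap_add, lap_C, LPF l K H hH.1 hH.2.1]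
    have e2 : MvPolynomial.C (cf l (K + 1) * μ ^ (K + 1)) *
        (MvPolynomial.C (2 * ((K : ℝ) + 1) * (2 * ((K : ℝ) + 1) + 2 * l + 1)) * (rho ^ K * H)) =
        - (MvPolynomial.C (μ * (cf l K * μ ^ K)) * (rho ^ K * H)) := by
      rw [← mul_assoc, ← MvPolynomial.C_mul, ← neg_mul, ← MvPolynomial.C_neg]
      congr 2
      have : cf l (K + 1) * μ ^ (K + 1) * (2 * ((K : ℝ) + 1) * (2 * ((K : ℝ) + 1) + 2 * l + 1)) =
          (2 * ((K : ℝ) + 1) * (2 * ((K : ℝ) + 1) + 2 * l + 1) * cf l (K + 1)) * μ ^ (K + 1) := by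
        ring
      rw [this, hrec]
      ring
    rw [e2]
    have e3 : MvPolynomial.C (μ * (cf l (K + 1) * μ ^ (K + 1))) * (rho ^ (K + 1) * H) =
        MvPolynomial.C μ * (MvPolynomial.C (cf l (K + 1) * μ ^ (K + 1)) * (rho ^ (K + 1) * H)) := by
      rw [MvPolynomial.C_mul (a := μ), mul_assoc]
    rw [e3, ← ih]
    ring

section
variable (EVP : EvpStmt) (ODP : OdpStmt) (CFS : CfsStmt) (LPF : LpfStmt) {R x : ℝ} (hR : 0 < R)
  (hx : 0 < x)
include EVP ODP CFS LPF hR hx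

theorem LL_psi (l : ℕ) (u : Lp ℝ 2 (mu (HB R))) (hu : OO ((x / R) ^ 2) u) (H : Pl) (hH : Har l H)
    (K : ℕ) : LL ((x / R) ^ 2) u (psi l ((x / R) ^ 2) H K) =
      (∑ k ∈ Finset.range (K + 1), cf l k * x ^ (2 * k)) * LL ((x / R) ^ 2) u H := by
  have hk : ∀ k : ℕ, LL ((x / R) ^ 2) u
      (MvPolynomial.C (cf l k * ((x / R) ^ 2) ^ k) * (rho ^ k * H)) =
      cf l k * x ^ (2 * k) * LL ((x / R) ^ 2) u H := by
    intro k
    rw [LL_C EVP, (LL_rho_pow EVP _ ODP u hu H hH.2.2 k).2]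
    have e : ((x / R) ^ 2) ^ k * (R ^ 2) ^ k = x ^ (2 * k) := by
      rw [← mul_pow, ← mul_pow, div_mul_cancel₀ x hR.ne', pow_mul]
    calc cf l k * ((x / R) ^ 2) ^ k * ((R ^ 2) ^ k * LL ((x / R) ^ 2) u H) =
        cf l k * (((x / R) ^ 2) ^ k * (R ^ 2) ^ k) * LL ((x / R) ^ 2) u H := by ring
      _ = _ := by rw [e]
  induction K with
  | zero =>
    unfold psi
    rw [Finset.sum_range_one, Finset.sum_range_one]
    exact hk 0
  | succ K ih =>
    have e : psi l ((x / R) ^ 2) H (K + 1) = psi l ((x / R) ^ 2) H K +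
        MvPolynomial.C (cf l (K + 1) * ((x / R) ^ 2) ^ (K + 1)) * (rho ^ (K + 1) * H) := by
      unfold psi
      rw [Finset.sum_range_succ]
    rw [e, LL_add EVP, ih, hk, Finset.sum_range_succ _ (K + 1)]
    ring

theorem LL_psi_bound (l : ℕ) (u : Lp ℝ 2 (mu (HB R))) (H : Pl) (hH : Har l H) :
    ∃ M : ℝ, ∀ K : ℕ, |LL ((x / R) ^ 2) u (psi l ((x / R) ^ 2) H K)| ≤
      M * |cf l K * x ^ (2 * K)| := by
  obtain ⟨M, hM⟩ : ∃ M : ℝ, M = ∫ z, |u z * ev H z| ∂(mu (HB R)) := ⟨_, rfl⟩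
  refine ⟨(x / R) ^ 2 * M, fun K => ?_⟩
  unfold LL
  rw [lap_psi CFS LPF l _ H hH K, I_C EVP, abs_mul]
  have h1 : |∫ z, u z * ev (rho ^ K * H) z ∂(mu (HB R))| ≤ (R ^ 2) ^ K * M := by
    rw [hM, ← integral_const_mul]
    refine (abs_integral_le_integral_abs).trans ?_
    refine integral_mono_ae (int_ev EVP u _).abs ((int_ev EVP u H).abs.const_mul _) ?_
    filter_upwards [ae_HB R] with z hz
    show |u z * ev (rho ^ K * H) z| ≤ (R ^ 2) ^ K * |u z * ev H z|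
    have e1 : ∀ k : ℕ, ev (rho ^ k * H) z = (‖z‖ ^ 2) ^ k * ev H z := by
      intro k
      induction k with
      | zero => rw [pow_zero, one_mul, pow_zero, one_mul]
      | succ k ihk =>
        have e : rho ^ (k + 1) * H = rho * (rho ^ k * H) := by ring
        rw [e, EVP.2.2.2.1, ihk, EVP.2.2.2.2.2.1]
        ring
    rw [e1 K]
    have e2 : u z * ((‖z‖ ^ 2) ^ K * ev H z) = (‖z‖ ^ 2) ^ K * (u z * ev H z) := by ring
    rw [e2, abs_mul, abs_of_nonneg (by positivity)]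
    apply mul_le_mul_of_nonneg_right _ (abs_nonneg _)
    apply pow_le_pow_left₀ (by positivity)
    apply pow_le_pow_left₀ (norm_nonneg _) hz.1.le
  have h2 : |(x / R) ^ 2 * (cf l K * ((x / R) ^ 2) ^ K)| =
      (x / R) ^ 2 * |cf l K| * ((x / R) ^ 2) ^ K := by
    rw [abs_mul, abs_mul, abs_of_nonneg (by positivity : (0 : ℝ) ≤ (x / R) ^ 2),
      abs_of_nonneg (by positivity : (0 : ℝ) ≤ ((x / R) ^ 2) ^ K)]
    ring
  have e : ((x / R) ^ 2) ^ K * (R ^ 2) ^ K = x ^ (2 * K) := by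
    rw [← mul_pow, ← mul_pow, div_mul_cancel₀ x hR.ne', pow_mul]
  rw [h2]
  calc (x / R) ^ 2 * |cf l K| * ((x / R) ^ 2) ^ K *
        |∫ z, u z * ev (rho ^ K * H) z ∂(mu (HB R))| ≤
      (x / R) ^ 2 * |cf l K| * ((x / R) ^ 2) ^ K * ((R ^ 2) ^ K * M) := by
        apply mul_le_mul_of_nonneg_left h1
        positivity
    _ = (x / R) ^ 2 * M * (|cf l K| * (((x / R) ^ 2) ^ K * (R ^ 2) ^ K)) := by ring
    _ = (x / R) ^ 2 * M * |cf l K * x ^ (2 * K)| := by
        rw [e, abs_mul, abs_of_nonneg (by positivity : (0 : ℝ) ≤ x ^ (2 * K))]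

theorem LL_har (l : ℕ) (u : Lp ℝ 2 (mu (HB R))) (hu : OO ((x / R) ^ 2) u) (H : Pl) (hH : Har l H) :
    hs l x * LL ((x / R) ^ 2) u H = 0 := by
  have t1 : Tendsto (fun K : ℕ => LL ((x / R) ^ 2) u (psi l ((x / R) ^ 2) H K)) atTop
      (𝓝 (hs l x * LL ((x / R) ^ 2) u H)) := by
    have h := ((CFS l).2.2.2.1 x).mul_const (LL ((x / R) ^ 2) u H)
    refine h.congr fun K => ?_
    exact (LL_psi EVP ODP CFS LPF hR hx l u hu H hH K).symm
  obtain ⟨M, hM⟩ := LL_psi_bound EVP ODP CFS LPF hR hx l u H hH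
  have t2 : Tendsto (fun K : ℕ => LL ((x / R) ^ 2) u (psi l ((x / R) ^ 2) H K)) atTop (𝓝 0) := by
    have h := (((CFS l).2.2.2.2 x).abs).const_mul M
    rw [abs_zero, mul_zero] at h
    exact squeeze_zero_norm (fun K => by rw [Real.norm_eq_abs]; exact hM K) h
  exact tendsto_nhds_unique t1 t2

theorem key (FIS : FisStmt) (SUR : SurStmt) (DEN : DenStmt) (u : Lp ℝ 2 (mu (HB R)))
    (hu : OO ((x / R) ^ 2) u)
    (hH : ∀ (l : ℕ) (H : Pl), Har l H → LL ((x / R) ^ 2) u H = 0) : u = 0 := by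
  have h1 : ∀ P : Pl, OddP P → LL ((x / R) ^ 2) u P = 0 := by
    intro P hP
    refine Submodule.span_induction (p := fun Q _ => LL ((x / R) ^ 2) u Q = 0) ?_ ?_ ?_ ?_
      (FIS P hP)
    · rintro _ ⟨b, l, H, hl, rfl⟩
      rw [(LL_rho_pow EVP _ ODP u hu H hl.2.2 b).2, hH l H hl, mul_zero]
    · exact LL_zero EVP _ u
    · intro P Q _ _ hP hQ
      rw [LL_add EVP, hP, hQ, add_zero]
    · intro c P _ hP
      rw [MvPolynomial.smul_eq_C_mul, LL_C EVP, hP, mul_zero]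
  apply DEN R u hR
  intro P hP
  have hμ : (x / R) ^ 2 ≠ 0 := by positivity
  obtain ⟨ψ, hψ, hψP⟩ := SUR ((x / R) ^ 2) P hμ hP
  have h := h1 ψ hψ
  unfold LL at h
  rw [hψP] at h
  exact h

end

theorem LL_lin (EVP : EvpStmt) {R : ℝ} (μ a b : ℝ) (u φ : Lp ℝ 2 (mu (HB R))) (P : Pl) :
    LL μ (b • u - a • φ) P = b * LL μ u P - a * LL μ φ P := by
  unfold LL
  rw [← integral_const_mul, ← integral_const_mul,
    ← integral_sub ((int_ev EVP u _).const_mul b) ((int_ev EVP φ _).const_mul a)]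
  refine integral_congr_ae ?_
  filter_upwards [Lp.coeFn_sub (b • u) (a • φ), Lp.coeFn_smul b u, Lp.coeFn_smul a φ] with z h1 h2 h3
  rw [h1, Pi.sub_apply, h2, h3, Pi.smul_apply, Pi.smul_apply, smul_eq_mul, smul_eq_mul]
  ring

theorem spe (CFS : CfsStmt) (LPF : LpfStmt) (ODP : OdpStmt) (FIS : FisStmt) (HAO : HaoStmt)
    (SUR : SurStmt) (EVP : EvpStmt) (DEN : DenStmt) (ORT : OrtStmt) : SpeStmt := by
  intro R x hR hx
  have hO : ∀ u : Lp ℝ 2 (mu (HB R)), IsEig (HB R) ((x / R) ^ 2) u → OO ((x / R) ^ 2) u :=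
    fun u hu Q hQ => ORT R ((x / R) ^ 2) u Q hR hu hQ
  refine ⟨?_, ?_⟩
  · intro hl u hu
    refine key EVP ODP CFS LPF hR hx FIS SUR DEN u (hO u hu) ?_
    intro l H hH
    rcases mul_eq_zero.1 (LL_har EVP ODP CFS LPF hR hx l u (hO u hu) H hH) with h | h
    · exact absurd h (hl l)
    · exact h
  · intro hl u φ hu hφ hφ0
    have hk : ∀ w : Lp ℝ 2 (mu (HB R)), OO ((x / R) ^ 2) w →
        LL ((x / R) ^ 2) w (MvPolynomial.X 2) = 0 → w = 0 := by
      intro w hw hw2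
      refine key EVP ODP CFS LPF hR hx FIS SUR DEN w hw ?_
      intro l H hH
      by_cases h1 : l = 1
      · subst h1
        obtain ⟨c, rfl⟩ := HAO H hH
        rw [LL_C EVP, hw2, mul_zero]
      · rcases mul_eq_zero.1 (LL_har EVP ODP CFS LPF hR hx l w hw H hH) with h | h
        · exact absurd h (hl l h1)
        · exact h
    obtain ⟨a, ha⟩ : ∃ a, a = LL ((x / R) ^ 2) u (MvPolynomial.X 2) := ⟨_, rfl⟩
    obtain ⟨b, hb⟩ : ∃ b, b = LL ((x / R) ^ 2) φ (MvPolynomial.X 2) := ⟨_, rfl⟩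
    have hb0 : b ≠ 0 := fun h => hφ0 (hk φ (hO φ hφ) (by rw [← hb, h]))
    have hw : b • u - a • φ = 0 := by
      apply hk
      · intro Q hQ
        rw [LL_lin EVP, hO u hu Q hQ, hO φ hφ Q hQ, mul_zero, mul_zero, sub_zero]
      · rw [LL_lin EVP, ← ha, ← hb]
        ring
    refine ⟨b⁻¹ * a, ?_⟩
    have h2 : b • u = a • φ := sub_eq_zero.1 hw
    calc u = b⁻¹ • (b • u) := by rw [smul_smul, inv_mul_cancel₀ hb0, one_smul]
      _ = (b⁻¹ * a) • φ := by rw [h2, smul_smul]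

end

end Pool.Agent.BEB.H3
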